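import Mathlib

/-! Depth four: the statement of the valuation-theoretic core. -/

namespace Pool.Agent.P.MP_08e617_lc.D4

open MvPolynomial

/-- Independent products of polynomials stay independent modulo a prime `P` of the coefficient
ring, if `P` avoids the algebra generated by the coefficients of any `card ι + 1` factors. -/
def Core : Prop :=
  ∀ (ι A : Type) [Fintype ι] [DecidableEq ι] [CommRing A] [IsDomain A] [Algebra ℚ A]
    (P : Ideal A) (_ : P.IsPrime) (𝒬 : Set (MvPolynomial ι A)) (T : ι → MvPolynomial ι A),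
    (∀ j, T j ∈ Submonoid.closure 𝒬) → AlgebraicIndependent A T →
    (∀ (q : ι → MvPolynomial ι A) (Q : MvPolynomial ι A), (∀ j, q j ∈ 𝒬) → Q ∈ 𝒬 →
      ∃ F : Subalgebra ℚ A, (∀ j b, coeff b (q j) ∈ F) ∧ (∀ b, coeff b Q ∈ F) ∧
        ∀ a ∈ F, a ∈ P → a = 0) →
    ∀ p : MvPolynomial ι ℚ, p ≠ 0 → ∃ b, coeff b (aeval T p) ∉ P

end Pool.Agent.P.MP_08e617_lc.D4
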