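import Mathlib

/-! Depth four: definitions used in the statement. -/

namespace Pool.Agent.P.MP_08e617_lc.D4

/-- `g` has total degree at most `k`; or `g` has at most `S` monomials and every variable has at
most `k + 1` different exponents in the monomials of `g` that contain two or more variables. -/
def Basic (k S : ℕ) (g : MvPolynomial ℕ ℚ) : Prop :=
  g.totalDegree ≤ k ∨ (g.support.card ≤ S ∧
    ∀ i, ((g.support.filter fun e => 1 < e.support.card).image fun e => e i).card ≤ k + 1)

/-- `Q` is a polynomial in `k` basic polynomials. -/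
def Factor (k S : ℕ) (Q : MvPolynomial ℕ ℚ) : Prop :=
  ∃ (g : Fin k → MvPolynomial ℕ ℚ) (p : MvPolynomial (Fin k) ℚ),
    (∀ i, Basic k S (g i)) ∧ Q = MvPolynomial.aeval g p

end Pool.Agent.P.MP_08e617_lc.D4
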