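import Pool.Agent.P.MP_08e617_lc.D4.Eta
import Pool.Agent.P.MP_08e617_lc.D4.CoreSt
import Pool.Agent.P.MP_08e617_lc.D4.Defs

/-! Depth four: the generator hits the class. -/

namespace Pool.Agent.P.MP_08e617_lc.D4

open MvPolynomial Finset
open Function hiding eval

/-- The number of coefficient polynomials that occur together. -/
def mm (k : ℕ) : ℕ := (k + 1) * (k * ((k + 1) ^ k + 1))

theorem hyp_fin {k N S S' : ℕ} (hS : (mm k).factorial * (S + 1) ^ mm k ≤ S') {ι : Type}
    [Fintype ι] (hρ : Fintype.card ι ≤ k) {l : ι → Fin N} (hl : Injective l)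
    (G : Option ι → MvPolynomial (Fin N) ℚ) (hG : ∀ o, Fac k S (G o)) :
    ∃ F : Subalgebra ℚ (MvPolynomial (Fin N) ℚ), (∀ o b, coeff b (eta l (G o)) ∈ F) ∧
      ∀ a ∈ F, a ≠ 0 → ∃ x ∈ Img N S' (mm k), eval x a ≠ 0 := by
  classical
  choose u h1 h2 h3 using fun o => tame_fac hl (hG o)
  refine ⟨Algebra.adjoin ℚ (univ.biUnion u : Finset _), fun o b =>
    Algebra.adjoin_mono (coe_subset.2 (subset_biUnion_of_mem u (mem_univ o))) (h3 o b),
    fun a ha ha0 => faith (κ := univ.biUnion u) ?_ hS Subtype.val (fun c => ?_)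
      (by rwa [Subtype.range_coe]) ha0⟩
  · rw [Fintype.card_coe]
    refine (card_biUnion_le_card_mul _ _ _ fun o _ => h1 o).trans ?_
    rw [card_univ, Fintype.card_option]
    exact Nat.mul_le_mul (Nat.succ_le_succ hρ) (Nat.mul_le_mul_left _
      (Nat.succ_le_succ (Nat.pow_le_pow_right (Nat.succ_pos _) hρ)))
  · obtain ⟨o, -, ho⟩ := mem_biUnion.1 c.2
    exact h2 o c ho

theorem hit_fin (hcore : Core) {k N S S' : ℕ} (hS : (mm k).factorial * (S + 1) ^ mm k ≤ S')
    (T : Fin k → MvPolynomial (Fin N) ℚ) (hT : ∀ j, T j ∈ Submonoid.closure {Q | Fac k S Q})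
    {f : MvPolynomial (Fin N) ℚ} (hf : IsAlgebraic (Algebra.adjoin ℚ (Set.range T)) f)
    (h0 : f ≠ 0) : ∃ p ∈ Img N S' (mm k + k), eval p f ≠ 0 := by
  classical
  obtain ⟨s, hs, halg⟩ := exists_max T
  obtain ⟨l, hl, hdet⟩ := det_of_indep _ hs
  have hρ : Fintype.card s ≤ k := (Fintype.card_subtype_le _).trans (by simp)
  obtain ⟨p, hp, g, hg⟩ := exists_dvd _ (halg f hf) h0
  obtain ⟨P, hP0, hP⟩ : ∃ P : Ideal (MvPolynomial (Fin N) ℚ), P.IsPrime ∧
      ∀ a, a ∈ P ↔ ∀ x ∈ Img N S' (mm k), eval x a = 0 :=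
    ⟨RingHom.ker (aeval (gen N S' (mm k))), RingHom.ker_isPrime _, fun a => gen_eq_zero⟩
  have h1 : ∀ j : s, eta l (T j) ∈ Submonoid.closure (eta l '' {Q | Fac k S Q}) := fun j => by
    have := Submonoid.mem_map_of_mem (eta l) (hT j)
    rwa [MonoidHom.map_mclosure] at this
  have h2 : AlgebraicIndependent (MvPolynomial (Fin N) ℚ) fun j : s => eta l (T j) :=
    indep_of_det (C_injective _ _) _ (fun j => pderiv j) fun h => eta_ne hl hdet (by
      rw [AlgHom.map_det, ← h]
      congr 1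
      ext1 i j
      simp [pderiv_eta hl])
  obtain ⟨b, hb⟩ := hcore s _ P hP0 _ _ h1 h2 (fun q Q hq hQ => by
      obtain ⟨Q, hQ, rfl⟩ := hQ
      choose G hG1 hG2 using hq
      obtain ⟨F, h3, h4⟩ := hyp_fin hS hρ hl (fun o => o.elim Q G) (by
        rintro (_ | j)
        exacts [hQ, hG1 j])
      refine ⟨F, fun j => hG2 j ▸ h3 (some j), h3 none, fun a ha haP => by_contra fun ha0 => ?_⟩
      obtain ⟨x, hx, hx0⟩ := h4 a ha ha0
      exact hx0 ((hP a).1 haP x hx)) p hp
  rw [← comp_aeval_apply, hg, map_mul, coeff_mul] at hb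
  obtain ⟨b', hb'⟩ : ∃ b', coeff b' (eta l f) ∉ P := by
    by_contra h
    push Not at h
    exact hb (P.sum_mem fun x _ => P.mul_mem_right _ (h _))
  rw [hP] at hb'
  push Not at hb'
  obtain ⟨x, hx, hx0⟩ := hb'
  obtain ⟨t, ht⟩ := exists_eval_ne (f := map (eval x) (eta l f)) fun h => hx0 (by
    rw [← coeff_map, h, coeff_zero])
  rw [eval_eta hl] at ht
  exact ⟨_, img_add hx (univ.image l) (card_image_le.trans hρ) _ fun j hj =>
    extend_apply' _ _ _ (by simpa using hj), ht⟩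

theorem card_deg (N k : ℕ) : ∃ s : Finset (Fin N →₀ ℕ), s.card ≤ (N + 1) ^ k ∧
    ∀ e : Fin N →₀ ℕ, (e.sum fun _ n => n) ≤ k → e ∈ s := by
  induction k with
  | zero =>
    refine ⟨{0}, by simp, fun e he => mem_singleton.2 (Finsupp.ext fun i => ?_)⟩
    rw [Finsupp.sum_fintype _ _ fun _ => rfl, Nat.le_zero, sum_eq_zero_iff] at he
    exact he i (mem_univ i)
  | succ k ih =>
    obtain ⟨s, h1, h2⟩ := ih
    refine ⟨s ∪ univ.biUnion fun i => s.image (· + Finsupp.single i 1), ?_, fun e he => ?_⟩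
    · refine (card_union_le _ _).trans ?_
      have := card_biUnion_le_card_mul univ
        (fun i : Fin N => s.image (· + Finsupp.single i 1)) s.card fun i _ => card_image_le
      rw [card_univ, Fintype.card_fin] at this
      rw [pow_succ]
      nlinarith
    · by_cases h : e = 0
      · exact mem_union_left _ (h2 e (by simp [h]))
      obtain ⟨i, hi⟩ := Finsupp.ne_iff.1 h
      have h3 : e - Finsupp.single i 1 + Finsupp.single i 1 = e :=
        Finsupp.sub_add_single_one_cancel hi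
      refine mem_union_right _ (mem_biUnion.2 ⟨i, mem_univ i, mem_image.2 ⟨_, h2 _ ?_, h3⟩⟩)
      rw [← h3, Finsupp.sum_add_index' (fun _ => rfl) fun _ _ _ => rfl,
        Finsupp.sum_single_index rfl] at he
      omega

/-- Substitution of constants for the variables from `N` on. -/
noncomputable def sub (N : ℕ) (a : ℕ → ℚ) : MvPolynomial ℕ ℚ →ₐ[ℚ] MvPolynomial (Fin N) ℚ :=
  (mapAlgHom (aeval a)).comp (eta (Fin.val : Fin N → ℕ))

theorem sub_apply (N : ℕ) (a : ℕ → ℚ) (g : MvPolynomial ℕ ℚ) :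
    sub N a g = map (eval a) (eta (Fin.val : Fin N → ℕ) g) := rfl

theorem eval_sub (N : ℕ) (a : ℕ → ℚ) (t : Fin N → ℚ) (g : MvPolynomial ℕ ℚ) :
    eval t (sub N a g) = eval (extend Fin.val t a) g := eval_eta Fin.val_injective t a g

theorem supp_sub {N : ℕ} {a : ℕ → ℚ} {g : MvPolynomial ℕ ℚ} {b : Fin N →₀ ℕ}
    (h : b ∈ (sub N a g).support) :
    ∃ e ∈ g.support, e.comapDomain Fin.val Fin.val_injective.injOn = b := by
  refine supp_eta Fin.val_injective fun h1 => mem_support_iff.1 h ?_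
  rw [sub_apply, coeff_map, h1, map_zero]

theorem deg_sub (N : ℕ) (a : ℕ → ℚ) (g : MvPolynomial ℕ ℚ) :
    (sub N a g).totalDegree ≤ g.totalDegree := by
  refine Finset.sup_le fun b hb => ?_
  obtain ⟨e, he, rfl⟩ := supp_sub hb
  refine le_trans ?_ (le_totalDegree he)
  rw [Finsupp.sum, Finsupp.sum]
  simp only [Finsupp.comapDomain_apply]
  rw [← sum_image (f := fun i => e i) Fin.val_injective.injOn]
  refine sum_le_sum_of_subset fun i hi => ?_
  obtain ⟨j, hj, rfl⟩ := mem_image.1 hi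
  simpa using hj

theorem bas_sub {k S : ℕ} (N : ℕ) (a : ℕ → ℚ) {g : MvPolynomial ℕ ℚ} (hg : Basic k S g) :
    Bas k (S + (N + 1) ^ k) (sub N a g) := by
  rcases hg with hg | hg
  · have h1 := (deg_sub N a g).trans hg
    obtain ⟨s, h2, h3⟩ := card_deg N k
    refine ⟨(card_le_card fun e he => h3 e ((le_totalDegree he).trans h1)).trans
      (h2.trans (Nat.le_add_left _ _)), fun i => ?_⟩
    refine (card_le_card fun n hn => ?_).trans (card_range (k + 1)).le
    obtain ⟨e, he, rfl⟩ := mem_image.1 hn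
    exact mem_range.2 (Nat.lt_succ_of_le ((monomial_le_degreeOf i (mem_filter.1 he).1).trans
      ((degreeOf_le_totalDegree _ i).trans h1)))
  · refine ⟨le_trans (card_le_card (t := g.support.image fun e =>
      e.comapDomain Fin.val Fin.val_injective.injOn) fun b hb => mem_image.2 (supp_sub hb))
      (card_image_le.trans (hg.1.trans (Nat.le_add_right _ _))), fun i => ?_⟩
    refine (card_le_card fun n hn => ?_).trans (hg.2 i)
    obtain ⟨b, hb, rfl⟩ := mem_image.1 hn
    obtain ⟨e, he, rfl⟩ := supp_sub (mem_filter.1 hb).1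
    refine mem_image.2 ⟨e, mem_filter.2 ⟨he, (mem_filter.1 hb).2.trans_le ?_⟩, rfl⟩
    exact card_le_card_of_injOn Fin.val
      (fun j hj => by simpa using hj)
      Fin.val_injective.injOn

theorem hit (hcore : Core) {k N S S' D : ℕ}
    (hS : (mm k).factorial * (S + (N + 1) ^ k + 1) ^ mm k ≤ S')
    (L : Fin k → List (MvPolynomial ℕ ℚ)) (hL : ∀ j, ∀ Q ∈ L j, Factor k S Q)
    {f : MvPolynomial ℕ ℚ} (hf : IsAlgebraic (Algebra.adjoin ℚ (Set.range fun j => (L j).prod)) f)
    (h0 : f ≠ 0) (hv : ∀ b c : ℕ → ℚ, (∀ i < N, b i = c i) → eval b f = eval c f)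
    (hD : f.totalDegree * (S' + N + 1) ≤ D) :
    ∃ (z : ℕ) (y w : Fin (mm k + k) → ℕ), z ≤ D ∧ (∀ j, y j ≤ D) ∧ (∀ j, w j ≤ D) ∧
      eval (pt N S' (z : ℚ) (fun j => (y j : ℚ)) fun j => (w j : ℚ)) f ≠ 0 := by
  obtain ⟨p, hp, hpf⟩ := hf
  obtain ⟨a, ha⟩ := exists_eval_ne (mul_ne_zero h0
    (show (p.leadingCoeff : MvPolynomial ℕ ℚ) ≠ 0 from fun h =>
      Polynomial.leadingCoeff_ne_zero.2 hp (Subtype.ext h)))
  have hne : ∀ g, eval a g ≠ 0 → sub N a g ≠ 0 := fun g hg h => hg (by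
    have := eval_sub N a (fun j => a j) g
    rw [h, map_zero, extend_self Fin.val_injective] at this
    exact this.symm)
  rw [map_mul, mul_ne_zero_iff] at ha
  let E := Algebra.adjoin ℚ (Set.range fun j => (L j).prod)
  let E' := Algebra.adjoin ℚ (Set.range fun j => sub N a (L j).prod)
  let ψ : E →ₐ[ℚ] E' := ((sub N a).comp E.val).codRestrict E' fun x => by
    have := Subalgebra.mem_map.2 ⟨x.1, x.2, (rfl : sub N a x.1 = _)⟩
    rwa [AlgHom.map_adjoin, ← Set.range_comp] at this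
  obtain ⟨x, hx, hx0⟩ := hit_fin hcore hS (fun j => sub N a (L j).prod) (fun j => by
      rw [map_list_prod]
      refine list_prod_mem fun Q hQ => Submonoid.subset_closure ?_
      obtain ⟨Q', hQ', rfl⟩ := List.mem_map.1 hQ
      obtain ⟨g, q, hg, rfl⟩ := hL j Q' hQ'
      refine ⟨fun i => sub N a (g i), fun i => bas_sub N a (hg i), ?_⟩
      rw [comp_aeval_apply, Algebra.adjoin_range_eq_range_aeval]
      exact ⟨q, rfl⟩) (f := sub N a f)
    ⟨p.map ψ, fun h => hne _ ha.2 (by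
      have := congrArg (fun r : Polynomial E' => r.coeff p.natDegree) h
      simp only [Polynomial.coeff_map, Polynomial.coeff_zero] at this
      exact congrArg Subtype.val this), by
      have := Polynomial.map_aeval_eq_aeval_map (φ := (ψ : E →+* E'))
        (ψ := (sub N a : MvPolynomial ℕ ℚ →+* MvPolynomial (Fin N) ℚ)) (by ext1; rfl) p f
      rw [hpf, map_zero] at this
      exact this.symm⟩ (hne _ ha.1)
  obtain ⟨z, y, w, h1, h2, h3, h4⟩ := img_grid
    ((Nat.mul_le_mul_right _ (deg_sub N a f)).trans hD) hx hx0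
  refine ⟨z, y, w, h1, h2, h3, ?_⟩
  rw [eval_sub] at h4
  refine fun h => h4 ((hv _ _ fun i hi => ?_).trans h)
  exact Fin.val_injective.extend_apply _ a ⟨i, hi⟩

end Pool.Agent.P.MP_08e617_lc.D4
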