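import Pool.Agent.P.MP_08e617_lc.Main
import Pool.Agent.P.MP_08e617_lc.D4.Hit

/-! Depth four: the algorithm (evaluation on the hitting set). -/

namespace Pool.Agent.P.MP_08e617_lc.D4

open Pool.Agent.Lib.helper21 Matrix Module MvPolynomial

variable {α : Type} [Enc α]

/-- List version of `lg`. -/
def lgL (N i : ℕ) (y : ℤ) : ℤ :=
  (((List.range N).filter fun l => !decide (l = i)).map fun l : ℕ => y - (l : ℤ)).prod
/-- The factorial. -/
def facL (N : ℕ) : ℤ := ((List.range N).map fun l => ((l + 1 : ℕ) : ℤ)).prod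
/-- Falling factorial. -/
def ffL (r : ℕ) (z : ℤ) : ℤ := ((List.range r).map fun l : ℕ => z - (l : ℤ)).prod
/-- Rising factorial. -/
def rfL (r d : ℕ) : ℤ := ((List.range d).map fun l => ((r + l + 1 : ℕ) : ℤ)).prod
/-- List version of `bt`. -/
def btL (N S i : ℕ) (z : ℤ) : ℤ :=
  ((List.range S).map fun r => ffL r z * rfL r (S - r) * (((i + 1 : ℕ) : ℤ) * facL N) ^ r).sum
/-- List version of `pt`. -/
def ptL (N S M z : ℕ) (y w : List ℕ) : List ℤ :=
  (List.range N).map fun i => btL N S i (z : ℤ) +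
    ((List.range M).map fun j => ((y.getD j 0 : ℕ) : ℤ) * lgL N i ((w.getD j 0 : ℕ) : ℤ)).sum
/-- Scaled value of a monomial. -/
def mvalZ (L a : List ℤ) (m : ℚ × List ℕ) : ℤ :=
  m.1.num * cof L (denZ m.1) *
    ((List.range m.2.length).map fun i => a.getD i 0 ^ m.2.getD i 0).prod
/-- Scaled value of the input matrix. -/
def evZ (I : Inp) (a : List ℤ) : List (List ℤ) :=
  mk I.length fun p q => (((I.getD p []).getD q []).map (mvalZ (dens I) a)).sum
/-- All lists of given length with entries at most `D`. -/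
def tup (D : ℕ) : ℕ → List (List ℕ)
  | 0 => [[]]
  | M + 1 => (List.range (D + 1)).flatMap fun a => (tup D M).map fun l => a :: l
/-- Number of points on the curve. -/
def SS (k : ℕ) (I : Inp) : ℕ := (mm k).factorial * (sz I ^ k + (nv I + 1) ^ k + 1) ^ mm k
/-- Side of the grid. -/
def DD (k : ℕ) (I : Inp) : ℕ := I.length * sz I * (SS k I + nv I + 1)
/-- Is the matrix singular at a point? -/
def sing (I : Inp) (a : List ℤ) : Bool := decide (0 < kd I.length (evZ I a) (evZ I a))
/-- The algorithm. -/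
def alg4 (k : ℕ) (I : Inp) : Bool :=
  (List.range (DD k I + 1)).all fun z => (tup (DD k I) (mm k + k)).all fun y =>
    (tup (DD k I) (mm k + k)).all fun w => sing I (ptL (nv I) (SS k I) (mm k + k) z y w)

@[fun_prop] theorem pt_pow {f : α → ℕ} (hf : PT f) (k : ℕ) : PT fun a => f a ^ k := by
  induction k with
  | zero => simpa using PT.const 1
  | succ k ih => simpa only [pow_succ] using ih.mul hf

@[fun_prop] theorem pt_lgL {N i : α → ℕ} {y : α → ℤ} (hN : PT N) (hi : PT i) (hy : PT y) :
    PT fun a => lgL (N a) (i a) (y a) := by unfold lgL; fun_prop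
@[fun_prop] theorem pt_facL {N : α → ℕ} (hN : PT N) : PT fun a => facL (N a) := by
  unfold facL; fun_prop
@[fun_prop] theorem pt_ffL {r : α → ℕ} {z : α → ℤ} (hr : PT r) (hz : PT z) :
    PT fun a => ffL (r a) (z a) := by unfold ffL; fun_prop
@[fun_prop] theorem pt_rfL {r d : α → ℕ} (hr : PT r) (hd : PT d) :
    PT fun a => rfL (r a) (d a) := by unfold rfL; fun_prop
@[fun_prop] theorem pt_btL {N S i : α → ℕ} {z : α → ℤ} (hN : PT N) (hS : PT S) (hi : PT i)
    (hz : PT z) : PT fun a => btL (N a) (S a) (i a) (z a) := by unfold btL; fun_prop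
@[fun_prop] theorem pt_ptL {N S M z : α → ℕ} {y w : α → List ℕ} (hN : PT N) (hS : PT S)
    (hM : PT M) (hz : PT z) (hy : PT y) (hw : PT w) :
    PT fun a => ptL (N a) (S a) (M a) (z a) (y a) (w a) := by unfold ptL; fun_prop
@[fun_prop] theorem pt_mvalZ {L b : α → List ℤ} {m : α → ℚ × List ℕ} (hL : PT L)
    (hb : PT b) (hm : PT m) : PT fun a => mvalZ (L a) (b a) (m a) := by unfold mvalZ; fun_prop
@[fun_prop] theorem pt_evZ {I : α → Inp} {b : α → List ℤ} (hI : PT I) (hb : PT b) :
    PT fun a => evZ (I a) (b a) := by unfold evZ; fun_prop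
@[fun_prop] theorem pt_sing {I : α → Inp} {b : α → List ℤ} (hI : PT I) (hb : PT b) :
    PT fun a => sing (I a) (b a) := by unfold sing; fun_prop
theorem pt_tup {D : α → ℕ} (hD : PT D) (M : ℕ) : PT fun a => tup (D a) M := by
  induction M with
  | zero => exact PT.const _
  | succ M ih =>
    have : PT fun p : α × ℕ => tup (D p.1) M := ih.comp (g := fun p : α × ℕ => p.1) (by fun_prop)
    unfold tup
    fun_prop
theorem pt_SS (k : ℕ) : PT (SS k) := by unfold SS; fun_prop
theorem pt_DD (k : ℕ) : PT (DD k) := by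
  have := pt_SS k
  unfold DD; fun_prop

theorem pt_alg4 (k : ℕ) : PT (alg4 k) := by
  have h1 := pt_SS k
  have h2 := pt_DD k
  have h3 := pt_tup h2 (mm k + k)
  generalize hM : mm k + k = M at h3
  have h4 : ∃ t : Inp → List (List ℕ), PT t ∧ ∀ I, tup (DD k I) M = t I := ⟨_, h3, fun _ => rfl⟩
  obtain ⟨t, h5, h6⟩ := h4
  unfold alg4
  simp only [hM, h6]
  fun_prop

theorem lgL_eq (N i : ℕ) (y : ℤ) : (lgL N i y : ℚ) = lg N i (y : ℚ) := by
  rw [lgL, lg, ← Finset.filter_ne', Finset.prod_filter, ← list_prod_range]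
  induction List.range N with
  | nil => simp
  | cons a l ih =>
    by_cases h : a = i
    · simpa [h] using ih
    · simpa [h] using Or.inl (by simpa using ih)

theorem facL_eq (N : ℕ) : facL N = N.factorial := by
  rw [facL, list_prod_range, ← Nat.cast_prod, Finset.prod_range_add_one_eq_factorial]

theorem btL_eq (N S i : ℕ) (z : ℤ) : (btL N S i z : ℚ) = bt N S i (z : ℚ) := by
  simp only [btL, bt, ffL, rfL, facL_eq, list_sum_range, list_prod_range]
  push_cast
  rfl

/-- A list of integers as a point. -/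
def faZ (a : List ℤ) : ℕ → ℚ := fun i => (a.getD i 0 : ℤ)

theorem ptL_eq (N S : ℕ) {M : ℕ} (z : ℕ) (y w : Fin M → ℕ) {i : ℕ} (hi : i < N) :
    faZ (ptL N S M z (List.ofFn y) (List.ofFn w)) i =
      pt N S (z : ℚ) (fun j => (y j : ℚ)) (fun j => (w j : ℚ)) i := by
  rw [faZ, ptL, List.getD_eq_getElem?_getD, List.getElem?_map, List.getElem?_range hi,
    Option.map_some, Option.getD_some, list_sum_range, Finset.sum_range, pt]
  push_cast
  simp [btL_eq, lgL_eq]

theorem mem_tup (D : ℕ) {M : ℕ} (y : Fin M → ℕ) (h : ∀ j, y j ≤ D) : List.ofFn y ∈ tup D M := by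
  induction M with
  | zero => simp [tup]
  | succ M ih =>
    rw [List.ofFn_succ, tup]
    exact List.mem_flatMap.2 ⟨_, List.mem_range.2 (Nat.lt_succ_of_le (h 0)),
      List.mem_map_of_mem (ih _ fun j => h _)⟩

theorem mvalZ_spec (L a : List ℤ) (m : ℚ × List ℕ) (h : denZ m.1 ∈ L) :
    (mvalZ L a m : ℚ) = (L.prod : ℤ) * eval (faZ a) (monoPoly m) := by
  rw [eval_monoPoly, ← cof_mul L _ h, mvalZ, list_prod_range]
  have := Rat.mul_den_eq_num m.1
  simp only [denZ, faZ] at this ⊢
  push_cast
  rw [← this]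
  ring

theorem evZ_spec (I : Inp) (a : List ℤ) : (toM I.length (evZ I a)).map (Int.castRingHom ℚ) =
    (((dens I).prod : ℤ) : ℚ) • (polyMatrix I).map (eval (faZ a)) := by
  rw [evZ, toM_mk]
  ext p q
  simp only [map_apply, of_apply, Matrix.smul_apply, polyMatrix, smul_eq_mul, map_list_sum,
    List.map_map, ← List.sum_map_mul_left]
  congr 1
  refine List.map_congr_left fun m hm => ?_
  exact mvalZ_spec _ a m (List.mem_map.2 ⟨m, mem_flat hm, rfl⟩)

theorem sing_iff (I : Inp) (a : List ℤ) :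
    sing I a = true ↔ eval (faZ a) (polyMatrix I).det = 0 := by
  rw [sing, decide_eq_true_eq, kd_spec, inf_idem, evZ_spec, ker_smul' (dens_ne I),
    RingHom.map_det, RingHom.mapMatrix_apply, ← exists_mulVec_eq_zero_iff,
    Nat.pos_iff_ne_zero, Ne, Submodule.finrank_eq_zero, ← Ne, Submodule.ne_bot_iff]
  simp [and_comm]

theorem det_congr (I : Inp) (b c : ℕ → ℚ) (h : ∀ i < nv I, b i = c i) :
    eval b (polyMatrix I).det = eval c (polyMatrix I).det := by
  rw [RingHom.map_det, RingHom.map_det, RingHom.mapMatrix_apply, RingHom.mapMatrix_apply,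
    eval_congr I h]

theorem sum_getD_le (l : List ℕ) : ∑ i ∈ Finset.range l.length, l.getD i 0 ≤ sz l := by
  induction l with
  | nil => simp
  | cons a l ih =>
    rw [List.length_cons, Finset.sum_range_succ', sz_cons, sz_nat]
    simp only [List.getD_cons_succ, List.getD_cons_zero]
    omega

theorem mono_deg (m : ℚ × List ℕ) : (monoPoly m).totalDegree ≤ sz m := by
  unfold monoPoly
  refine (totalDegree_mul _ _).trans ?_
  rw [totalDegree_C, zero_add]
  refine (totalDegree_finsetProd _ _).trans ?_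
  refine (Finset.sum_le_sum (g := fun i => m.2.getD i 0) fun i _ => ?_).trans ?_
  · exact (totalDegree_X_pow _ _).le
  · have := sum_getD_le m.2
    rw [sz_prod]
    omega

theorem leaf_deg (p : List (ℚ × List ℕ)) : (p.map monoPoly).sum.totalDegree ≤ sz p := by
  induction p with
  | nil => simp
  | cons m p ih =>
    rw [List.map_cons, List.sum_cons, sz_cons]
    have := mono_deg m
    refine (totalDegree_add _ _).trans (max_le ?_ ?_) <;> omega

theorem sz_getD {β : Type} [Enc β] (l : List (List β)) (i : ℕ) : sz (l.getD i []) ≤ sz l := by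
  rw [List.getD_eq_getElem?_getD]
  cases h : l[i]? with
  | none => cases l <;> simp
  | some x => exact sz_mem (List.mem_of_getElem? h)

theorem det_deg (I : Inp) : (polyMatrix I).det.totalDegree ≤ I.length * sz I := by
  rw [det_apply]
  refine totalDegree_finsetSum_le fun σ _ => le_trans ?_ ((totalDegree_finsetProd Finset.univ
    fun i => polyMatrix I (σ i) i).trans ((Finset.sum_le_card_nsmul _ _ (sz I) fun i _ =>
      (leaf_deg _).trans ((sz_getD _ _).trans (sz_getD _ _))).trans (by simp)))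
  rcases Int.units_eq_one_or (Equiv.Perm.sign σ) with h1 | h1 <;> simp [h1]

theorem alg4_correct (hcore : Core) (k : ℕ) (I : Inp) (L : Fin k → List (MvPolynomial ℕ ℚ))
    (hL : ∀ j, ∀ Q ∈ L j, Factor k ((encInput I).length ^ k) Q)
    (hf : IsAlgebraic (Algebra.adjoin ℚ (Set.range fun j => (L j).prod)) (polyMatrix I).det) :
    alg4 k I = true ↔ (polyMatrix I).det = 0 := by
  rw [encInput_eq] at hL
  simp only [alg4, List.all_eq_true, sing_iff]
  refine ⟨fun h => by_contra fun h0 => ?_, fun h _ _ _ _ _ _ => by rw [h, map_zero]⟩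
  obtain ⟨z, y, w, h1, h2, h3, h4⟩ := hit hcore (N := nv I) (S' := SS k I) (D := DD k I) le_rfl
    L hL hf h0 (det_congr I) (Nat.mul_le_mul_right _ (det_deg I))
  exact h4 ((det_congr I _ _ fun i hi => (ptL_eq _ _ z y w hi).symm).trans
    (h z (List.mem_range.2 (Nat.lt_succ_of_le h1)) _ (mem_tup _ y h2) _ (mem_tup _ w h3)))

theorem main (hcore : Core) (k : ℕ) : ∃ f : List (List (List (ℚ × List ℕ))) → Bool,
    Nonempty (Turing.TM2ComputableInPolyTime encInput Computability.encodeBool f) ∧
    ∀ (I : List (List (List (ℚ × List ℕ)))) (L : Fin k → List (MvPolynomial ℕ ℚ)),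
      (∀ j, ∀ Q ∈ L j, Factor k ((encInput I).length ^ k) Q) →
      IsAlgebraic (Algebra.adjoin ℚ (Set.range fun j => (L j).prod)) (polyMatrix I).det →
        (f I = true ↔ (polyMatrix I).det = 0) :=
  ⟨alg4 k, encInput_eq ▸ (pt_alg4 k).toTM2, alg4_correct hcore k⟩

end Pool.Agent.P.MP_08e617_lc.D4
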