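import Pool.Agent.P.MP_08e617_lc.D4.CoreSt
import Pool.Agent.P.MP_08e617_lc.DvE

/-! Depth four: proof of the valuation-theoretic core. -/

namespace Pool.Agent.P.MP_08e617_lc.Dv

open Finset MvPolynomial

/-- The constant filtration given by a subring. -/
def constFil {K : Type} [Field K] (S : Subring K) : Fil K where
  F _ := S.toAddSubgroup
  one := S.one_mem
  mono _ _ h := h
  mul := S.mul_mem

theorem core_holds : D4.Core := by
  intro ι A _ _ _ _ _ P _ 𝒬 T hT hind H p hp
  have : CharZero A := algebraRat.charZero A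
  let k := AlgebraicClosure (FractionRing A)
  let a : A →+* k := (algebraMap (FractionRing A) k).comp (algebraMap A _)
  have ha : Function.Injective a :=
    (algebraMap (FractionRing A) k).injective.comp (IsFractionRing.injective A _)
  obtain ⟨V, hV1, hV2⟩ := exists_val a ha P
  have hV : ∀ g, V.valuation (a g) ≤ 1 := fun g =>
    (em (g ∈ P)).elim (fun h => (hV2 g h).le) fun h => (hV1 g h).le
  obtain ⟨K, _, _, _, j, τ, hj, hτ⟩ := exists_field k
  have : CharZero K := charZero_of_injective_ringHom j.injective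
  obtain ⟨ξ, hξ⟩ := exists_xi ι
  have hτ0 : ∀ i, τ (ξ i) ≠ 0 := fun i => norm_pos_iff.1 (hτ _ ▸ Real.exp_pos _)
  have hξ' : LinearIndependent ℚ fun i => Real.log ‖τ (ξ i)‖ := by simpa [hτ] using hξ
  let _ : Algebra A K := (j.comp a).toAlgebra
  obtain ⟨ψ, hψ⟩ := exists_lift (hind.isTranscendenceBasis_of_trdeg_le_of_finite (by simp))
    (tau_indep (A := A) (fun c hc => hj (a c) ((map_ne_zero_iff a ha).2 hc)) hτ0 hξ')
  choose L hL1 hL2 using fun i => Submonoid.exists_list_of_mem_closure (hT i)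
  have hψ1 : ∀ i, ((L i).map ψ).prod = τ (ξ i) := fun i => by rw [← map_list_prod, hL2, hψ]
  have hψ2 : ∀ g, ψ g = eval₂ (j.comp a) (fun i => ψ (X i)) g := fun g =>
    DFunLike.congr_fun (aeval_unique ψ) g
  have h1 : ∀ (F : Subalgebra ℚ A) (δ : ℕ) (g : MvPolynomial ι A), (∀ b, coeff b g ∈ F) →
      g.totalDegree ≤ δ →
      ψ g ∈ ((constFil (F.toSubring.map (j.comp a))).ext fun i => ψ (X i)).F δ :=
    fun F δ g h2 h3 => by
      rw [hψ2, eval₂_eq']
      exact sum_mem fun μ hμ => mem_sp ⟨_, h2 μ, rfl⟩ ⟨μ, fun i =>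
        ((monomial_le_degreeOf i hμ).trans (degreeOf_le_totalDegree _ _)).trans h3, rfl⟩
  by_contra h
  push Not at h
  refine mid j hj V.valuation (fun c => eq_ratCast (a.comp (algebraMap ℚ A)) c ▸ hV _)
    (fun i => ψ (X i)) le_rfl (fun i => (L i).map ψ) (fun i => hψ1 i ▸ hτ0 i)
    (by simpa only [hψ1] using hξ') (fun q g hq ⟨l, hg⟩ => ?_) hp (map a (aeval T p))
    (fun μ => by rw [coeff_map]; exact hV2 _ (h μ)) ?_
  · choose l' hq using hq
    choose q' h2 h3 using fun i => List.mem_map.1 (hq i)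
    obtain ⟨g, h4, rfl⟩ := List.mem_map.1 hg
    obtain ⟨F, h5, h6, h7⟩ := H q' g (fun i => hL1 _ _ (h2 i)) (hL1 _ _ h4)
    refine ⟨constFil (F.toSubring.map (j.comp a)),
      ∑ i, (q' i).totalDegree + g.totalDegree + 1, Nat.succ_pos _, ?_, ?_,
      fun i => h3 i ▸ h1 F _ _ (h5 i) ?_, h1 F _ _ h6 (by omega)⟩
    · rintro _ _ ⟨c, -, rfl⟩
      exact ⟨a c, hV c, rfl⟩
    · rintro _ ⟨c, hc, rfl⟩ h0
      exact ⟨a c, hV1 c fun h8 => h0 (by rw [h7 c hc h8, map_zero]), rfl⟩
    · have := single_le_sum (f := fun i => (q' i).totalDegree) (fun _ _ => Nat.zero_le _)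
        (mem_univ i)
      omega
  · rw [eval₂_map, ← hψ2]
    have h4 : ψ.toRingHom.toRatAlgHom.comp (aeval T) = aeval fun i => ((L i).map ψ).prod :=
      algHom_ext fun i => by rw [AlgHom.comp_apply, aeval_X, aeval_X, hψ1]; exact hψ i
    exact (DFunLike.congr_fun h4 p).symm

end Pool.Agent.P.MP_08e617_lc.Dv

/-- The valuation-theoretic core holds. -/
theorem Pool.Agent.P.MP_08e617_lc.D4.core : Pool.Agent.P.MP_08e617_lc.D4.Core :=
  Pool.Agent.P.MP_08e617_lc.Dv.core_holds
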