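import Pool.Agent.P.MP_08e617_lc.D4.Faith

/-! Depth four: a polynomial as a polynomial in some of its variables. -/

namespace Pool.Agent.P.MP_08e617_lc.D4

open MvPolynomial Finset Function

variable {ι τ : Type}

/-- A polynomial viewed as a polynomial in the variables `l j`. -/
noncomputable def eta (l : ι → τ) : MvPolynomial τ ℚ →ₐ[ℚ] MvPolynomial ι (MvPolynomial τ ℚ) :=
  aeval (extend l X fun i => C (X i))

variable {l : ι → τ}

theorem eta_X (hl : Injective l) (j : ι) : eta l (X (l j)) = X j := by
  rw [eta, aeval_X, hl.extend_apply]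

theorem eta_X' {i : τ} (hi : ¬∃ j, l j = i) : eta l (X i) = C (X i) := by
  rw [eta, aeval_X, extend_apply' _ _ _ hi]

theorem eta_C (c : ℚ) : eta l (C c) = C (C c) := (eta l).commutes c

theorem eval_eta (hl : Injective l) (t : ι → ℚ) (q : τ → ℚ) (g : MvPolynomial τ ℚ) :
    eval t (map (eval q) (eta l g)) = eval (extend l t q) g := by
  induction g using MvPolynomial.induction_on with
  | C c => simp
  | add f g hf hg => simp only [map_add, hf, hg]
  | mul_X f i hf =>
    simp only [map_mul, hf, eval_X]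
    congr 1
    by_cases hi : ∃ j, l j = i
    · obtain ⟨j, rfl⟩ := hi
      rw [eta_X hl, hl.extend_apply, map_X, eval_X]
    · rw [eta_X' hi, extend_apply' _ _ _ hi, map_C, eval_C, eval_X]

theorem extend_self (hl : Injective l) (x : τ → ℚ) : extend l (fun j => x (l j)) x = x := by
  funext i
  by_cases hi : ∃ j, l j = i
  · obtain ⟨j, rfl⟩ := hi
    rw [hl.extend_apply]
  · rw [extend_apply' _ _ _ hi]

theorem eta_ne (hl : Injective l) {g : MvPolynomial τ ℚ} (h : g ≠ 0) : eta l g ≠ 0 := by
  obtain ⟨x, hx⟩ := exists_eval_ne h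
  intro h0
  have := eval_eta hl (fun j => x (l j)) x g
  rw [h0, map_zero, map_zero, extend_self hl] at this
  exact hx this.symm

theorem pderiv_eta (hl : Injective l) (j : ι) (g : MvPolynomial τ ℚ) :
    pderiv j (eta l g) = eta l (pderiv (l j) g) := by
  induction g using MvPolynomial.induction_on with
  | C c => simp
  | add f g hf hg => simp only [map_add, hf, hg]
  | mul_X f i hf =>
    have : pderiv j (eta l (X i)) = eta l (pderiv (l j) (X i)) := by
      by_cases hi : ∃ j, l j = i
      · obtain ⟨j', rfl⟩ := hi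
        rw [eta_X hl]
        by_cases h : j' = j
        · subst h; simp
        · rw [pderiv_X_of_ne h, pderiv_X_of_ne (hl.ne h), map_zero]
      · rw [eta_X' hi, pderiv_C, pderiv_X_of_ne (fun h => hi ⟨j, h.symm⟩), map_zero]
    rw [map_mul, pderiv_mul, pderiv_mul, map_add, map_mul, map_mul, hf, this]

open Classical in
/-- The part of an exponent vector outside the range of `l`. -/
noncomputable def out (l : ι → τ) (e : τ →₀ ℕ) : τ →₀ ℕ := e.filter fun i => ¬∃ j, l j = i

open Classical in
theorem eta_monomial (hl : Injective l) (e : τ →₀ ℕ) (c : ℚ) :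
    eta l (monomial e c) =
      monomial (e.comapDomain l hl.injOn) (monomial (out l e) c) := by
  unfold out
  induction e using Finsupp.induction_linear generalizing c with
  | zero => rw [Finsupp.filter_zero, Finsupp.comapDomain_zero]; exact eta_C c
  | add e e' he he' =>
    rw [← mul_one c, ← monomial_mul, map_mul, he, he', monomial_mul, monomial_mul,
      Finsupp.comapDomain_add_of_injective hl, Finsupp.filter_add]
  | single i n =>
    rw [← C_mul_X_pow_eq_monomial, map_mul, map_pow, eta_C]
    by_cases hi : ∃ j, l j = i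
    · obtain ⟨j, rfl⟩ := hi
      rw [eta_X hl, Finsupp.comapDomain_single, Finsupp.filter_single_of_neg _ (by simp),
        C_mul_X_pow_eq_monomial]
      rfl
    · rw [eta_X' hi, Finsupp.comapDomain_single_of_not_mem_range hi,
        Finsupp.filter_single_of_pos (fun i => ¬∃ j, l j = i) hi, ← map_pow, ← map_mul, C_mul_X_pow_eq_monomial]
      rfl

open Classical in
theorem coeff_eta (hl : Injective l) (g : MvPolynomial τ ℚ) (b : ι →₀ ℕ) :
    coeff b (eta l g) = ∑ e ∈ g.support, if e.comapDomain l hl.injOn = b then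
      monomial (out l e) (coeff e g) else 0 := by
  conv_lhs => rw [g.as_sum, map_sum, coeff_sum]
  exact sum_congr rfl fun e _ => by rw [eta_monomial hl, coeff_monomial]

theorem supp_eta (hl : Injective l) {g : MvPolynomial τ ℚ} {b : ι →₀ ℕ}
    (h : coeff b (eta l g) ≠ 0) : ∃ e ∈ g.support, e.comapDomain l hl.injOn = b := by
  rw [coeff_eta hl] at h
  obtain ⟨e, he, h1⟩ := exists_ne_zero_of_sum_ne_zero h
  exact ⟨e, he, by_contra fun h2 => h1 (if_neg h2)⟩

theorem sp_eta (hl : Injective l) (g : MvPolynomial τ ℚ) (b : ι →₀ ℕ) :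
    (coeff b (eta l g)).support.card ≤ g.support.card := by
  rw [coeff_eta hl]
  refine (sp_sum _ _ 1 fun e _ => ?_).trans (by simp)
  split_ifs
  · exact sp_mono _ _
  · simp

/-- At most `S` monomials; every variable has at most `k + 1` different exponents in the
monomials with at least two variables. -/
def Bas (k S : ℕ) (g : MvPolynomial τ ℚ) : Prop :=
  g.support.card ≤ S ∧
    ∀ i, ((g.support.filter fun e => 1 < e.support.card).image fun e => e i).card ≤ k + 1

theorem tame [Fintype ι] (hl : Injective l) {k S : ℕ} {g : MvPolynomial τ ℚ} (hg : Bas k S g) :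
    ∃ s : Finset (MvPolynomial τ ℚ), s.card ≤ (k + 1) ^ Fintype.card ι + 1 ∧
      (∀ c ∈ s, c.support.card ≤ S) ∧ ∀ b, coeff b (eta l g) ∈ Algebra.adjoin ℚ (s : Set _) := by
  classical
  let E : τ → Finset ℕ := fun i => (g.support.filter fun e => 1 < e.support.card).image fun e => e i
  let B : Finset (ι →₀ ℕ) := insert 0
    ((Fintype.piFinset fun j => E (l j)).image Finsupp.equivFunOnFinite.symm)
  refine ⟨B.image fun b => coeff b (eta l g), card_image_le.trans ((card_insert_le _ _).trans
    (Nat.succ_le_succ (card_image_le.trans ?_))), fun c hc => ?_, fun b => ?_⟩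
  · rw [Fintype.card_piFinset]
    exact prod_le_pow_card _ _ _ fun j _ => hg.2 _
  · obtain ⟨b, -, rfl⟩ := mem_image.1 hc
    exact (sp_eta hl g b).trans hg.1
  · by_cases hb : b ∈ B
    · exact Algebra.subset_adjoin (mem_coe.2 (mem_image_of_mem _ hb))
    rw [coeff_eta hl]
    refine Subalgebra.sum_mem _ fun e he => ?_
    split_ifs with h
    · subst h
      rw [mem_insert, not_or] at hb
      have h1 : e.support.card ≤ 1 := by
        by_contra h1
        refine hb.2 (mem_image.2 ⟨fun j => e (l j), Fintype.mem_piFinset.2 fun j =>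
          mem_image_of_mem _ (mem_filter.2 ⟨he, not_le.1 h1⟩), ?_⟩)
        ext j; simp
      obtain ⟨j, hj⟩ := Finsupp.ne_iff.1 hb.1
      have h2 : out l e = 0 := by
        ext i
        rw [out, Finsupp.filter_apply]
        split_ifs with h3
        · rfl
        · by_contra h4
          exact h3 ⟨j, card_le_one.1 h1 _ (Finsupp.mem_support_iff.2 hj) _
            (Finsupp.mem_support_iff.2 h4)⟩
      rw [h2]
      exact Subalgebra.algebraMap_mem _ _
    · exact Subalgebra.zero_mem _

theorem coeff_adjoin {A : Type} [CommRing A] [Algebra ℚ A] (F : Subalgebra ℚ A)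
    {s : Set (MvPolynomial ι A)} (hs : ∀ g ∈ s, ∀ b, coeff b g ∈ F) :
    ∀ g ∈ Algebra.adjoin ℚ s, ∀ b, coeff b g ∈ F := by
  classical
  intro g hg
  induction hg using Algebra.adjoin_induction with
  | mem x hx => exact hs x hx
  | algebraMap r =>
    intro b
    rw [MvPolynomial.algebraMap_apply, coeff_C]
    split_ifs
    · exact F.algebraMap_mem r
    · exact F.zero_mem
  | add x y _ _ hx hy => exact fun b => coeff_add b x y ▸ F.add_mem (hx b) (hy b)
  | mul x y _ _ hx hy =>
    exact fun b => coeff_mul x y b ▸ F.sum_mem fun p _ => F.mul_mem (hx _) (hy _)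

/-- A polynomial in `k` polynomials satisfying `Bas`. -/
def Fac (k S : ℕ) (Q : MvPolynomial τ ℚ) : Prop :=
  ∃ g : Fin k → MvPolynomial τ ℚ, (∀ i, Bas k S (g i)) ∧ Q ∈ Algebra.adjoin ℚ (Set.range g)

theorem tame_fac [Fintype ι] (hl : Injective l) {k S : ℕ} {Q : MvPolynomial τ ℚ} (hQ : Fac k S Q) :
    ∃ s : Finset (MvPolynomial τ ℚ), s.card ≤ k * ((k + 1) ^ Fintype.card ι + 1) ∧
      (∀ c ∈ s, c.support.card ≤ S) ∧ ∀ b, coeff b (eta l Q) ∈ Algebra.adjoin ℚ (s : Set _) := by
  classical
  obtain ⟨g, hg, hQ⟩ := hQ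
  choose s h1 h2 h3 using fun i => tame hl (hg i)
  refine ⟨univ.biUnion s, (card_biUnion_le_card_mul _ _ _ fun i _ => h1 i).trans (by simp),
    fun c hc => ?_, coeff_adjoin _ (s := eta l '' Set.range g) ?_ _ ?_⟩
  · obtain ⟨i, -, hi⟩ := mem_biUnion.1 hc
    exact h2 i c hi
  · rintro _ ⟨_, ⟨i, rfl⟩, rfl⟩ b
    exact Algebra.adjoin_mono (coe_subset.2 (subset_biUnion_of_mem s (mem_univ i))) (h3 i b)
  · rw [← AlgHom.map_adjoin]
    exact ⟨Q, hQ, rfl⟩

end Pool.Agent.P.MP_08e617_lc.D4
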