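import Mathlib

/-! Depth four: the generator (a curve through the Ben-Or and Tiwari points plus a
Shpilka and Volkovich map) and its image. -/

namespace Pool.Agent.P.MP_08e617_lc.D4

open MvPolynomial Finset

section defs

variable {R R' : Type} [CommRing R] [CommRing R']

/-- Unnormalised Lagrange polynomial. -/
def lg (N i : ℕ) (y : R) : R := ∏ l ∈ (range N).erase i, (y - l)

/-- A polynomial in `z` with value `S! * ((i + 1) * N! + 1) ^ j` at `z = j < S`. -/
def bt (N S i : ℕ) (z : R) : R :=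
  ∑ r ∈ range S, (∏ l ∈ range r, (z - l)) * (∏ l ∈ range (S - r), ((r + l + 1 : ℕ) : R)) *
    (((i + 1) * N.factorial : ℕ) : R) ^ r

/-- The generator. -/
def pt (N S : ℕ) {M : ℕ} (z : R) (y w : Fin M → R) (i : ℕ) : R :=
  bt N S i z + ∑ j, y j * lg N i (w j)

theorem map_pt (φ : R →+* R') (N S : ℕ) {M : ℕ} (z : R) (y w : Fin M → R) (i : ℕ) :
    φ (pt N S z y w i) = pt N S (φ z) (fun j => φ (y j)) (fun j => φ (w j)) i := by
  simp only [pt, bt, lg, map_add, map_sum, map_mul, map_prod, map_sub, map_natCast, map_pow]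

end defs

theorem bt_nat {N S i j : ℕ} (hj : j < S) :
    bt N S i (j : ℚ) = S.factorial * (((i + 1) * N.factorial + 1 : ℕ) : ℚ) ^ j := by
  have h1 : ∀ r, ∏ l ∈ range r, ((j : ℚ) - l) = r.factorial * j.choose r := by
    intro r
    induction r with
    | zero => simp
    | succ r ih =>
      rw [prod_range_succ, ih, Nat.factorial_succ]
      rcases le_or_gt r j with h | h
      · have := congrArg (Nat.cast : ℕ → ℚ) (Nat.choose_succ_right_eq j r)
        push_cast [Nat.cast_sub h] at this ⊢
        linear_combination (-(r.factorial : ℚ)) * this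
      · simp [Nat.choose_eq_zero_of_lt h, Nat.choose_eq_zero_of_lt (h.trans (Nat.lt_succ_self r))]
  have h2 : ∀ r d, (r.factorial : ℚ) * ∏ l ∈ range d, ((r + l + 1 : ℕ) : ℚ) = (r + d).factorial := by
    intro r d
    induction d with
    | zero => simp
    | succ d ih =>
      rw [prod_range_succ, ← mul_assoc, ih, ← add_assoc, Nat.factorial_succ]
      push_cast; ring
  rw [bt, Nat.cast_succ, add_pow, mul_sum,
    ← sum_subset (range_subset_range.2 (Nat.succ_le_of_lt hj))]
  · refine sum_congr rfl fun r hr => ?_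
    have := h2 r (S - r)
    rw [Nat.add_sub_cancel' (by have := mem_range.1 hr; omega)] at this
    rw [h1, ← this]; ring
  · intro r _ hr
    rw [h1, Nat.choose_eq_zero_of_lt (by simpa using hr)]
    simp

theorem lg_ne {N i l : ℕ} (hl : l < N) (h : i ≠ l) : lg N i (l : ℚ) = 0 :=
  prod_eq_zero (mem_erase.2 ⟨Ne.symm h, mem_range.2 hl⟩) (by simp)

theorem lg_self (N i : ℕ) : lg N i (i : ℚ) ≠ 0 :=
  prod_ne_zero_iff.2 fun m hm => sub_ne_zero.2 (by exact_mod_cast (ne_of_mem_erase hm).symm)

/-- The image of the generator. -/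
def Img (N S M : ℕ) : Set (Fin N → ℚ) :=
  {p | ∃ (z : ℚ) (y w : Fin M → ℚ), p = fun i : Fin N => pt N S z y w i}

theorem img_succ {N S M : ℕ} {a : Fin N → ℚ} (ha : a ∈ Img N S M) (y w : ℚ) :
    (fun i : Fin N => a i + y * lg N i w) ∈ Img N S (M + 1) := by
  obtain ⟨z, y', w', rfl⟩ := ha
  refine ⟨z, Fin.cons y y', Fin.cons w w', funext fun i => ?_⟩
  simp only [pt, Fin.sum_univ_succ, Fin.cons_zero, Fin.cons_succ]
  ring

theorem img_mono (N S : ℕ) {M M' : ℕ} (h : M ≤ M') : Img N S M ⊆ Img N S M' := by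
  induction M', h using Nat.le_induction with
  | base => exact le_rfl
  | succ n _ ih =>
    intro a ha
    simpa using img_succ (ih ha) 0 0

theorem img_add {N S M t : ℕ} {a : Fin N → ℚ} (ha : a ∈ Img N S M) (U : Finset (Fin N))
    (hU : U.card ≤ t) (p : Fin N → ℚ) (hp : ∀ j ∉ U, p j = a j) : p ∈ Img N S (M + t) := by
  have key : ∀ V : Finset (Fin N), (fun i => if i ∈ V then p i else a i) ∈ Img N S (M + V.card) := by
    intro V
    induction V using Finset.induction_on with
    | empty => simpa using ha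
    | insert l V hl ih =>
      rw [card_insert_of_notMem hl, ← add_assoc]
      convert img_succ ih ((p l - a l) / lg N l (l : ℚ)) (l : ℕ) using 2 with i
      by_cases h2 : i = l
      · subst h2
        simp [hl, div_mul_cancel₀ _ (lg_self N i)]
      · simp [h2, lg_ne l.2 (Fin.val_ne_of_ne h2)]
  refine img_mono N S (Nat.add_le_add_left hU M) ?_
  convert key U using 2 with i
  split_ifs with h2
  · rfl
  · exact hp i h2

/-- The coordinates of the generator as polynomials in the seeds. -/
noncomputable def gen (N S M : ℕ) (i : Fin N) : MvPolynomial (Option (Fin M ⊕ Fin M)) ℚ :=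
  pt N S (X none) (fun j => X (some (.inl j))) (fun j => X (some (.inr j))) i

theorem eval_aeval' {σ τ : Type} (g : σ → MvPolynomial τ ℚ) (x : τ → ℚ) (f : MvPolynomial σ ℚ) :
    eval x (aeval g f) = eval (fun i => eval x (g i)) f := by
  induction f using MvPolynomial.induction_on with
  | C c => simp
  | add f g hf hg => rw [map_add, map_add, map_add, hf, hg]
  | mul_X f j hf => rw [map_mul, map_mul, map_mul, hf, aeval_X, eval_X]

theorem eval_gen (N S M : ℕ) (x : Option (Fin M ⊕ Fin M) → ℚ) (f : MvPolynomial (Fin N) ℚ) :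
    eval x (aeval (gen N S M) f) = eval (fun i : Fin N =>
      pt N S (x none) (fun j => x (some (.inl j))) (fun j => x (some (.inr j))) i) f := by
  rw [eval_aeval']
  simp only [gen, map_pt, eval_X]

theorem gen_eq_zero {N S M : ℕ} {f : MvPolynomial (Fin N) ℚ} :
    aeval (gen N S M) f = 0 ↔ ∀ p ∈ Img N S M, eval p f = 0 := by
  constructor
  · rintro h _ ⟨z, y, w, rfl⟩
    have := eval_gen N S M (fun o => o.elim z (Sum.elim y w)) f
    rw [h, map_zero] at this
    exact this.symm
  · intro h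
    refine MvPolynomial.funext fun x => ?_
    rw [eval_gen, map_zero]
    exact h _ ⟨_, _, _, rfl⟩

theorem deg_aeval {σ τ : Type} (g : σ → MvPolynomial τ ℚ) (B : ℕ)
    (hg : ∀ i, (g i).totalDegree ≤ B) (f : MvPolynomial σ ℚ) :
    (aeval g f).totalDegree ≤ f.totalDegree * B := by
  rw [aeval_def, eval₂_eq]
  refine totalDegree_finsetSum_le fun d hd => (totalDegree_mul _ _).trans ?_
  rw [algebraMap_eq, totalDegree_C, zero_add]
  refine (totalDegree_finsetProd _ _).trans ?_
  refine le_trans (sum_le_sum fun i _ =>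
    (totalDegree_pow _ _).trans (Nat.mul_le_mul_left _ (hg i))) ?_
  rw [← sum_mul]
  exact Nat.mul_le_mul_right _ (le_totalDegree hd)

theorem deg_nat {σ : Type} (n : ℕ) : (n : MvPolynomial σ ℚ).totalDegree = 0 := by
  rw [← map_natCast (C : ℚ →+* MvPolynomial σ ℚ), totalDegree_C]

theorem deg_lin {σ : Type} (s : Finset ℕ) (o : σ) :
    (∏ l ∈ s, (X o - (l : MvPolynomial σ ℚ))).totalDegree ≤ s.card := by
  refine (totalDegree_finsetProd _ _).trans ((sum_le_card_nsmul _ _ 1 fun l _ => ?_).trans (by simp))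
  refine (totalDegree_sub _ _).trans ?_
  rw [totalDegree_X, deg_nat]
  exact le_rfl

theorem deg_gen (N S M : ℕ) (i : Fin N) : (gen N S M i).totalDegree ≤ S + N + 1 := by
  refine (totalDegree_add _ _).trans (max_le ?_ ?_)
  · refine totalDegree_finsetSum_le fun r hr => ?_
    rw [← Nat.cast_prod, ← Nat.cast_pow, mul_assoc, ← Nat.cast_mul]
    refine (totalDegree_mul _ _).trans ?_
    have := deg_lin (σ := Option (Fin M ⊕ Fin M)) (range r) none
    rw [card_range] at this
    have := mem_range.1 hr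
    rw [deg_nat]
    omega
  · refine totalDegree_finsetSum_le fun j _ => (totalDegree_mul _ _).trans ?_
    have := (deg_lin (σ := Option (Fin M ⊕ Fin M)) ((range N).erase i) (some (.inr j))).trans
      card_erase_le
    rw [card_range] at this
    rw [totalDegree_X, lg, add_comm]
    exact Nat.succ_le_succ (this.trans (Nat.le_add_left _ _))

theorem img_grid {N S M D : ℕ} {f : MvPolynomial (Fin N) ℚ} (hf : f.totalDegree * (S + N + 1) ≤ D)
    {p : Fin N → ℚ} (hp : p ∈ Img N S M) (h : eval p f ≠ 0) :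
    ∃ (z : ℕ) (y w : Fin M → ℕ), z ≤ D ∧ (∀ j, y j ≤ D) ∧ (∀ j, w j ≤ D) ∧
      eval (fun i : Fin N => pt N S (z : ℚ) (fun j => (y j : ℚ)) (fun j => (w j : ℚ)) i) f ≠ 0 := by
  by_contra h3
  refine h (gen_eq_zero.1 (eq_zero_of_eval_zero_at_prod_finset _
    (fun _ => (range (D + 1)).image fun s : ℕ => (s : ℚ)) (fun i => ?_) fun x hx => ?_) p hp)
  · rw [card_image_of_injective _ Nat.cast_injective, card_range]
    exact Nat.lt_succ_of_le ((degreeOf_le_totalDegree _ _).trans
      ((deg_aeval _ _ (deg_gen N S M) f).trans hf))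
  · simp only [mem_image, mem_range] at hx
    choose s hs1 hs2 using hx
    by_contra h4
    refine h3 ⟨s none, fun j => s (some (.inl j)), fun j => s (some (.inr j)),
      Nat.lt_succ_iff.1 (hs1 _), fun j => Nat.lt_succ_iff.1 (hs1 _),
      fun j => Nat.lt_succ_iff.1 (hs1 _), ?_⟩
    rw [eval_gen] at h4
    simpa only [hs2] using h4

theorem pow_inj {τ : Type} [Fintype τ] (a : τ → ℕ) (h1 : ∀ i, 1 < a i)
    (h2 : ∀ i j, i ≠ j → (a i).Coprime (a j)) :
    Function.Injective fun e : τ →₀ ℕ => ∏ i, a i ^ e i := by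
  classical
  have key : ∀ e e' : τ →₀ ℕ, ∏ i, a i ^ e i = ∏ i, a i ^ e' i → ∀ i, e i ≤ e' i := by
    intro e e' h i
    have h3 : a i ^ e i ∣ ∏ i, a i ^ e' i := h ▸ dvd_prod_of_mem _ (mem_univ i)
    rw [← mul_prod_erase _ _ (mem_univ i)] at h3
    exact (Nat.pow_dvd_pow_iff_le_right (h1 i)).1 (Nat.Coprime.dvd_of_dvd_mul_right
      (Nat.Coprime.prod_right fun j hj => (h2 i j (ne_of_mem_erase hj).symm).pow _ _) h3)
  exact fun e e' h => Finsupp.ext fun i => le_antisymm (key e e' h i) (key e' e h.symm i)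

/-- Ben-Or and Tiwari: the curve hits sparse polynomials. -/
theorem img_sparse {N S : ℕ} {f : MvPolynomial (Fin N) ℚ} (h0 : f ≠ 0) (hS : f.support.card ≤ S) :
    ∃ p ∈ Img N S 0, eval p f ≠ 0 := by
  by_contra h
  push Not at h
  let a : Fin N → ℕ := fun i => (i + 1) * N.factorial + 1
  have hinj := pow_inj a (fun i => Nat.succ_lt_succ (Nat.mul_pos (Nat.succ_pos i) N.factorial_pos))
    fun i j hij => by
    rcases lt_or_gt_of_ne (Fin.val_ne_of_ne hij) with h | h
    · exact Nat.coprime_mul_succ (Nat.dvd_factorial (by omega) (by omega))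
    · exact (Nat.coprime_mul_succ (Nat.dvd_factorial (by omega) (by omega))).symm
  let ε := f.support.equivFin.symm
  have key := Matrix.eq_zero_of_forall_pow_sum_mul_pow_eq_zero (R := ℚ)
    (f := fun t => ((∏ i, a i ^ (ε t).1 i : ℕ) : ℚ))
    (v := fun t => coeff (ε t) f * ∏ i, (S.factorial : ℚ) ^ (ε t).1 i)
    (fun t t' h => ε.injective (Subtype.ext (hinj (Nat.cast_injective h)))) fun j => by
      have h1 := h _ ⟨(j : ℕ), Fin.elim0, Fin.elim0, rfl⟩
      rw [eval_eq', ← sum_coe_sort, ← ε.sum_comp] at h1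
      rw [← h1]
      refine sum_congr rfl fun t _ => ?_
      rw [mul_assoc, Nat.cast_prod, ← prod_pow, ← prod_mul_distrib]
      congr 1
      refine prod_congr rfl fun i _ => ?_
      rw [pt, bt_nat (j.2.trans_le hS), univ_eq_empty, sum_empty, add_zero, mul_pow, Nat.cast_pow,
        ← pow_mul, ← pow_mul, mul_comm (j : ℕ)]
  obtain ⟨e, he⟩ := support_nonempty.2 h0
  have := congrFun key (ε.symm ⟨e, he⟩)
  simp only [Equiv.apply_symm_apply, Pi.zero_apply] at this
  refine mul_ne_zero (mem_support_iff.1 he) (prod_ne_zero_iff.2 fun i _ => pow_ne_zero _ ?_) this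
  exact_mod_cast S.factorial_ne_zero

end Pool.Agent.P.MP_08e617_lc.D4
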