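import Pool.Agent.P.MP_08e617_lc.D4.Jac
import Pool.Agent.P.MP_08e617_lc.D4.Gen

/-! Depth four: the generator is faithful on algebras generated by few sparse polynomials. -/

namespace Pool.Agent.P.MP_08e617_lc.D4

open MvPolynomial Finset

section sparse

variable {τ : Type}

theorem sp_mul (f g : MvPolynomial τ ℚ) : (f * g).support.card ≤ f.support.card * g.support.card := by
  classical exact (card_le_card (support_mul f g)).trans card_add_le

theorem sp_sum {κ A : Type} [CommSemiring A] (s : Finset κ) (f : κ → MvPolynomial τ A) (B : ℕ)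
    (h : ∀ i ∈ s, (f i).support.card ≤ B) : (∑ i ∈ s, f i).support.card ≤ s.card * B := by
  classical exact (card_le_card support_sum).trans (card_biUnion_le_card_mul _ _ _ h)

theorem sp_prod {κ : Type} (s : Finset κ) (f : κ → MvPolynomial τ ℚ) (B : ℕ)
    (h : ∀ i ∈ s, (f i).support.card ≤ B) : (∏ i ∈ s, f i).support.card ≤ B ^ s.card := by
  classical
  induction s using Finset.induction_on with
  | empty => simp [support_one]
  | insert a s ha ih =>
    rw [prod_insert ha, card_insert_of_notMem ha, pow_succ']
    exact (sp_mul _ _).trans (Nat.mul_le_mul (h a (mem_insert_self _ _))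
      (ih fun i hi => h i (mem_insert_of_mem hi)))

theorem sp_mono {A : Type} [CommSemiring A] (e : τ →₀ ℕ) (c : A) :
    (monomial e c).support.card ≤ 1 :=
  (card_le_card support_monomial_subset).trans (by simp)

theorem sp_pderiv (i : τ) (f : MvPolynomial τ ℚ) : (pderiv i f).support.card ≤ f.support.card := by
  conv_lhs => rw [f.as_sum, map_sum]
  simpa using sp_sum f.support (fun e => pderiv i (monomial e (coeff e f))) 1 fun e _ => by
    rw [pderiv_monomial]; exact sp_mono _ _

theorem sp_det {ι : Type} [Fintype ι] [DecidableEq ι] (M : Matrix ι ι (MvPolynomial τ ℚ)) (B : ℕ)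
    (h : ∀ i j, (M i j).support.card ≤ B) :
    M.det.support.card ≤ (Fintype.card ι).factorial * B ^ Fintype.card ι := by
  rw [Matrix.det_apply, ← Fintype.card_perm]
  refine sp_sum _ _ _ fun σ _ => le_trans ?_ (sp_prod univ (fun i => M (σ i) i) B fun i _ => h _ _)
  rcases Int.units_eq_one_or (Equiv.Perm.sign σ) with h1 | h1 <;> simp [h1]

end sparse

theorem exists_eval_ne {σ : Type} {f : MvPolynomial σ ℚ} (h : f ≠ 0) : ∃ x, eval x f ≠ 0 := by
  by_contra h1
  push Not at h1
  exact h (MvPolynomial.funext fun x => by rw [h1, map_zero])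

theorem faith {N S S' m : ℕ} {κ : Type} [Fintype κ] (hκ : Fintype.card κ ≤ m)
    (hS : m.factorial * (S + 1) ^ m ≤ S') (c : κ → MvPolynomial (Fin N) ℚ)
    (hc : ∀ i, (c i).support.card ≤ S) {a : MvPolynomial (Fin N) ℚ}
    (ha : a ∈ Algebra.adjoin ℚ (Set.range c)) (h0 : a ≠ 0) :
    ∃ p ∈ Img N S' m, eval p a ≠ 0 := by
  classical
  obtain ⟨s, hs, halg⟩ := exists_max c
  obtain ⟨l, hl, hdet⟩ := det_of_indep _ hs
  have hρ : Fintype.card s ≤ m := (Fintype.card_subtype_le _).trans hκ
  obtain ⟨β, hβ, hβ0⟩ := img_sparse (S := S') hdet (by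
    refine (sp_det _ (S + 1) fun i j => ((sp_pderiv _ _).trans (hc _)).trans (Nat.le_succ _)).trans
      (le_trans ?_ hS)
    exact Nat.mul_le_mul (Nat.factorial_le hρ) (Nat.pow_le_pow_right (Nat.succ_pos _) hρ))
  let χ : MvPolynomial (Fin N) ℚ →ₐ[ℚ] MvPolynomial (Fin N) ℚ :=
    aeval fun i => if i ∈ univ.image l then X i else C (β i)
  have hev : ∀ x g, eval x (χ g) = eval (fun i => if i ∈ univ.image l then x i else β i) g := by
    intro x g
    rw [eval_aeval']
    congr 2
    funext i
    split_ifs <;> simp
  have hder : ∀ j g, pderiv (l j) (χ g) = χ (pderiv (l j) g) := by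
    intro j g
    induction g using MvPolynomial.induction_on with
    | C c => simp [χ]
    | add f g hf hg => simp only [map_add, hf, hg]
    | mul_X f i hf =>
      have : pderiv (l j) (χ (X i)) = χ (pderiv (l j) (X i)) := by
        by_cases h : i = l j
        · subst h
          simp only [χ, aeval_X, if_pos (mem_image_of_mem l (mem_univ j)), pderiv_X_self, map_one]
        · rw [pderiv_X_of_ne h, map_zero]
          simp only [χ, aeval_X]
          split_ifs
          · exact pderiv_X_of_ne h
          · exact pderiv_C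
      rw [map_mul, pderiv_mul, pderiv_mul, map_add, map_mul, map_mul, hf, this]
  have hind : AlgebraicIndependent ℚ fun i : s => χ (c i) := by
    refine indep_of_det (algebraMap ℚ _).injective _ (fun j => pderiv (l j)) fun h => hβ0 ?_
    have h1 : (Matrix.of fun i j : s => pderiv (l j) (χ (c i))) =
        χ.mapMatrix (Matrix.of fun i j : s => pderiv (l j) (c i)) := by
      ext1 i j; simp [hder]
    rw [h1, ← AlgHom.map_det] at h
    have h2 := hev β (Matrix.of fun i j : s => pderiv (l j) (c i)).det
    rw [h, map_zero] at h2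
    simpa using h2.symm
  obtain ⟨p, hp, g, hg⟩ := exists_dvd _
    (halg a (isAlgebraic_algebraMap (⟨a, ha⟩ : Algebra.adjoin ℚ (Set.range c)))) h0
  have h3 : χ a ≠ 0 := fun h => hp (hind.eq_zero_of_aeval_eq_zero p (by
    rw [← comp_aeval_apply, hg, map_mul, h, zero_mul]))
  obtain ⟨x, hx⟩ := exists_eval_ne h3
  rw [hev] at hx
  refine ⟨_, ?_, hx⟩
  have := img_add hβ (univ.image l) (card_image_le.trans hρ)
    (fun i => if i ∈ univ.image l then x i else β i) fun j hj => if_neg hj
  rwa [zero_add] at this

end Pool.Agent.P.MP_08e617_lc.D4
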