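import Mathlib

/-! Depth four: the Jacobian criterion in characteristic zero. -/

namespace Pool.Agent.P.MP_08e617_lc.D4

open MvPolynomial

section kill

variable {A R : Type*} [CommRing A] [CommRing R] [Algebra A R]

theorem kill_adjoin (D : Derivation A R R) {s : Set R} (h : ∀ x ∈ s, D x = 0) :
    ∀ x ∈ Algebra.adjoin A s, D x = 0 := by
  intro x hx
  induction hx using Algebra.adjoin_induction with
  | mem x hx => exact h x hx
  | algebraMap r => exact D.map_algebraMap r
  | add x y _ _ hx hy => rw [map_add, hx, hy, add_zero]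
  | mul x y _ _ hx hy => rw [D.leibniz, hx, hy, smul_zero, smul_zero, add_zero]

theorem der_sum {ι : Type*} (s : Finset ι) (D : ι → Derivation A R R) (x : R) :
    (∑ j ∈ s, D j) x = ∑ j ∈ s, D j x := by
  classical
  induction s using Finset.induction_on with
  | empty => simp
  | insert a s ha ih => rw [Finset.sum_insert ha, Finset.sum_insert ha, Derivation.add_apply, ih]

variable [IsDomain R] [CharZero R]

/-- A derivation that vanishes on a subalgebra vanishes on everything algebraic over it. -/
theorem kill (D : Derivation A R R) (E : Subalgebra A R) (h : ∀ x ∈ E, D x = 0) {x : R}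
    (hx : IsAlgebraic E x) : D x = 0 := by
  have key : ∀ p : Polynomial E,
      D (Polynomial.aeval x p) = Polynomial.aeval x (Polynomial.derivative p) * D x := by
    intro p
    induction p using Polynomial.induction_on' with
    | add p q hp hq => simp only [map_add, hp, hq, add_mul]
    | monomial n a =>
      have h1 : D (algebraMap E R a) = 0 := h _ a.2
      rw [Polynomial.derivative_monomial, Polynomial.aeval_monomial, Polynomial.aeval_monomial,
        D.leibniz, h1, D.leibniz_pow]
      simp only [smul_eq_mul, nsmul_eq_mul, map_mul, map_natCast]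
      ring
  obtain ⟨p, hp, h0⟩ := hx
  induction hn : p.natDegree using Nat.strong_induction_on generalizing p with
  | _ n ih =>
    by_cases hd : p.natDegree = 0
    · rw [Polynomial.eq_C_of_natDegree_eq_zero hd, Polynomial.aeval_C] at h0
      refine absurd ?_ hp
      rw [Polynomial.eq_C_of_natDegree_eq_zero hd]
      rw [show p.coeff 0 = 0 from Subtype.ext h0, map_zero]
    · have h1 := key p
      rw [h0, map_zero] at h1
      rcases mul_eq_zero.1 h1.symm with h2 | h2
      · exact ih _ (hn ▸ Polynomial.natDegree_derivative_lt hd) _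
          (fun h3 => hd (Polynomial.derivative_eq_zero.1 h3)) h2 rfl
      · exact h2

/-- A nonzero Jacobian determinant gives algebraic independence. -/
theorem indep_of_det {ι : Type*} [Fintype ι] [DecidableEq ι]
    (hinj : Function.Injective (algebraMap A R)) (c : ι → R) (D : ι → Derivation A R R)
    (h : (Matrix.of fun i j => D j (c i)).det ≠ 0) : AlgebraicIndependent A c := by
  set M : Matrix ι ι R := Matrix.of fun i j => D j (c i) with hM
  have key : ∀ i i', (∑ j, M.adjugate j i • D j) (c i') = if i' = i then M.det else 0 := by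
    intro i i'
    have := congrFun (congrFun (Matrix.mul_adjugate M) i') i
    rw [Matrix.mul_apply, Matrix.smul_apply, Matrix.one_apply] at this
    rw [der_sum]
    simp only [Derivation.smul_apply, smul_eq_mul] at this ⊢
    rw [mul_ite, mul_one, mul_zero] at this
    rw [← this]
    exact Finset.sum_congr rfl fun j _ => mul_comm _ _
  refine algebraicIndependent_of_finite_type' hinj fun t _ _ i hi halg => h ?_
  have := kill (∑ j, M.adjugate j i • D j) _ (kill_adjoin _ ?_) halg
  · rwa [key, if_pos rfl] at this
  · rintro _ ⟨i', hi', rfl⟩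
    rw [key, if_neg]
    rintro rfl
    exact hi hi'

end kill

/-- Algebraically independent polynomials have a nonzero Jacobian minor. -/
theorem det_of_indep {τ ι : Type} [Fintype τ] [Fintype ι] [DecidableEq ι]
    (c : ι → MvPolynomial τ ℚ) (hc : AlgebraicIndependent ℚ c) :
    ∃ l : ι → τ, Function.Injective l ∧ (Matrix.of fun i j => pderiv (l j) (c i)).det ≠ 0 := by
  classical
  have hX : (AlgebraicIndependent.matroid ℚ (MvPolynomial τ ℚ)).IsBase (Set.range X) :=
    AlgebraicIndependent.matroid_isBase_iff.2
      (IsTranscendenceBasis.mvPolynomial τ ℚ).to_subtype_range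
  have hI : (AlgebraicIndependent.matroid ℚ (MvPolynomial τ ℚ)).Indep (Set.range c) :=
    AlgebraicIndependent.matroid_indep_iff.2 hc.to_subtype_range
  obtain ⟨u, hu, h1, h2⟩ := hI.exists_isBase_subset_union_isBase hX
  let I : Set τ := {i | X i ∈ u \ Set.range c}
  have hu' : u = Set.range c ∪ X '' I := by
    refine Set.Subset.antisymm (fun x hx => ?_) (Set.union_subset h1 ?_)
    · by_cases h : x ∈ Set.range c
      · exact Or.inl h
      · obtain ⟨i, rfl⟩ := (h2 hx).resolve_left h
        exact Or.inr ⟨i, ⟨hx, h⟩, rfl⟩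
    · rintro _ ⟨i, hi, rfl⟩
      exact hi.1
  have hcard : Fintype.card ι = Fintype.card ↥Iᶜ := by
    have e1 := hu.ncard_eq_ncard_of_isBase hX
    rw [hu', Set.ncard_union_eq (Set.disjoint_left.2 (by
      rintro _ h ⟨i, hi, rfl⟩
      exact hi.2 h)), Set.ncard_range_of_injective hc.injective,
      Set.ncard_range_of_injective (X_injective (R := ℚ)),
      Set.ncard_image_of_injective _ (X_injective (R := ℚ))] at e1
    have e2 := Set.ncard_add_ncard_compl I
    rw [← Nat.card_eq_fintype_card, ← Nat.card_eq_fintype_card, Nat.card_coe_set_eq]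
    omega
  let e := Fintype.equivOfCardEq hcard
  have hl : Function.Injective fun j => (e j : τ) := Subtype.val_injective.comp e.injective
  refine ⟨fun j => e j, hl, fun h0 => ?_⟩
  obtain ⟨v, hv, h3⟩ := Matrix.exists_mulVec_eq_zero_iff.2 h0
  have halg := (AlgebraicIndependent.matroid_isBase_iff.1 hu).isAlgebraic
  rw [Subtype.range_val] at halg
  refine hv (funext fun j => ?_)
  have := kill (∑ j, v j • pderiv (e j : τ)) _ (kill_adjoin _ ?_) (halg.1 (X (e j : τ)))
  · rw [der_sum, Finset.sum_eq_single j] at this
    · simpa using this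
    · intro j' _ hj
      rw [Derivation.smul_apply, pderiv_X_of_ne (fun h => hj (hl h).symm), smul_zero]
    · simp
  · rw [hu']
    rintro _ (⟨i, rfl⟩ | ⟨i, hi, rfl⟩)
    · have := congrFun h3 i
      rw [der_sum]
      simp only [Matrix.mulVec, dotProduct, Matrix.of_apply, Pi.zero_apply] at this
      rw [← this]
      exact Finset.sum_congr rfl fun j _ => by rw [Derivation.smul_apply, smul_eq_mul, mul_comm]
    · rw [der_sum]
      refine Finset.sum_eq_zero fun j _ => ?_
      rw [Derivation.smul_apply, pderiv_X_of_ne, smul_zero]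
      rintro rfl
      exact (e j).2 hi

/-- A maximal independent subfamily. -/
theorem exists_max {R κ : Type} [CommRing R] [IsDomain R] [Algebra ℚ R] (c : κ → R) :
    ∃ s : Set κ, AlgebraicIndependent ℚ (fun i : s => c i) ∧
      ∀ a : R, IsAlgebraic (Algebra.adjoin ℚ (Set.range c)) a →
        IsAlgebraic (Algebra.adjoin ℚ (Set.range fun i : s => c i)) a := by
  obtain ⟨B, hB⟩ := (AlgebraicIndependent.matroid ℚ R).exists_isBasis (Set.range c)
  have h1 := AlgebraicIndependent.matroid_isBasis_iff.1 hB
  choose g hg using fun x : B => h1.2.1 x.2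
  have hgi : Function.Injective g := fun x y h => Subtype.ext (by rw [← hg x, ← hg y, h])
  have hr : (Set.range fun i : Set.range g => c i) = B := by
    ext x
    constructor
    · rintro ⟨⟨_, y, rfl⟩, rfl⟩
      exact (hg y).symm.subst (motive := fun z => z ∈ B) y.2
    · exact fun hx => ⟨⟨_, ⟨x, hx⟩, rfl⟩, hg _⟩
  refine ⟨Set.range g, ?_, fun a ha => ?_⟩
  · refine (algebraicIndependent_equiv (Equiv.ofInjective g hgi)).1 ?_
    convert h1.1 using 1
    exact funext fun x => hg x
  · rw [hr]
    exact (AlgebraicIndependent.isAlgebraic_adjoin_iff_of_matroid_isBasis hB).2 ha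

/-- A nonzero element algebraic over independent elements divides a nonzero polynomial in them. -/
theorem exists_dvd {R ι : Type} [CommRing R] [IsDomain R] [Algebra ℚ R] (c : ι → R) {a : R}
    (ha : IsAlgebraic (Algebra.adjoin ℚ (Set.range c)) a) (h0 : a ≠ 0) :
    ∃ p : MvPolynomial ι ℚ, p ≠ 0 ∧ a ∣ aeval c p := by
  obtain ⟨r, hr, hd⟩ := ha.exists_nonzero_dvd (mem_nonZeroDivisors_of_ne_zero h0)
  obtain ⟨p, hp⟩ : ∃ p : MvPolynomial ι ℚ, aeval c p = r :=
    (Algebra.adjoin_range_eq_range_aeval ℚ c).le r.2
  refine ⟨p, fun h => hr (Subtype.ext ?_), ?_⟩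
  · rw [← hp, h]; simp
  · exact hp ▸ hd

end Pool.Agent.P.MP_08e617_lc.D4
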